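import Pool.Agent.W363.JQ.Stm

/-! # JQ-LTT: transport of transversality -/

set_option autoImplicit false
open Filter Topology Set Metric

namespace Pool.Agent.W597.JQL
open Pool.Agent.W363.JQ

theorem per_int {φ : ℝ → ℂ} (h : ∀ t, φ (t + 1) = φ t) (t : ℝ) (k : ℤ) : φ (t + k) = φ t := by
  have h1 : Function.Periodic φ 1 := h
  have h2 := h1.int_mul k t
  rwa [mul_one] at h2

/-- two sided bounds near a point of the Julia set for `F` -/
theorem bil1 {F : Polynomial ℂ} {r : ℝ} (hB : Bas F) (hE : Ex F r) {q : ℂ} (hq : q ∈ JJ F) :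
    ∃ c L δ : ℝ, 0 < c ∧ 0 < L ∧ 0 < δ ∧ ∀ x ∈ ball q δ, ∀ y ∈ ball q δ,
      c * dist x y ≤ dist (F.eval x) (F.eval y) ∧ dist (F.eval x) (F.eval y) ≤ L * dist x y := by
  obtain ⟨g, g1, g2, g3, -⟩ := hE.2 (F.eval q) ((hB.invJ q).2 hq) (F.eval q)
    (mem_ball_self hE.1) q rfl
  have hgd : HasDerivAt g (deriv g (F.eval q)) (F.eval q) :=
    (g1.differentiableAt (isOpen_ball.mem_nhds (mem_ball_self hE.1))).hasDerivAt
  have hne : F.derivative.eval q ≠ 0 := by
    intro h0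
    have h1 : HasDerivAt (fun z => F.eval z) (F.derivative.eval (g (F.eval q))) (g (F.eval q)) :=
      F.hasDerivAt _
    have h2 := h1.comp (F.eval q) hgd
    rw [g2, h0, zero_mul] at h2
    have h3 : (fun u : ℂ => u) =ᶠ[𝓝 (F.eval q)] ((fun z => F.eval z) ∘ g) := by
      filter_upwards [isOpen_ball.mem_nhds (mem_ball_self hE.1)] with u hu
      exact (g3 u hu).symm
    have h4 := h2.congr_of_eventuallyEq h3
    have h5 := h4.unique (hasDerivAt_id (F.eval q))
    exact zero_ne_one h5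
  have hs : HasStrictDerivAt (fun z => F.eval z) (F.derivative.eval q) q := F.hasStrictDerivAt q
  set c := F.derivative.eval q with hc
  have hc0 : 0 < ‖c‖ := norm_pos_iff.2 hne
  have h1 := hs.isLittleO.def (half_pos hc0)
  rw [Metric.eventually_nhds_iff] at h1
  obtain ⟨δ, hδ, h1⟩ := h1
  refine ⟨‖c‖ / 2, ‖c‖ + ‖c‖ / 2, δ, half_pos hc0, by positivity, hδ, ?_⟩
  intro x hx y hy
  have h2 := @h1 (x, y) (by
    rw [Prod.dist_eq]
    exact max_lt hx hy)
  simp only [dist_eq_norm] at *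
  have h3 : ‖F.eval x - F.eval y - (x - y) • c‖ ≤ ‖c‖ / 2 * ‖x - y‖ := by
    simpa using h2
  have h4 : ‖(x - y) • c‖ = ‖x - y‖ * ‖c‖ := norm_smul _ _
  have h5 := norm_sub_norm_le ((x - y) • c) (F.eval x - F.eval y)
  have h6 := norm_sub_norm_le (F.eval x - F.eval y) ((x - y) • c)
  rw [norm_sub_rev ((x - y) • c)] at h5
  constructor
  · nlinarith
  · nlinarith

/-- two sided bounds for the iterates -/
theorem bil {F : Polynomial ℂ} {r : ℝ} (hB : Bas F) (hE : Ex F r) (n : ℕ) :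
    ∀ q ∈ JJ F, ∃ c L δ : ℝ, 0 < c ∧ 0 < L ∧ 0 < δ ∧ ∀ x ∈ ball q δ, ∀ y ∈ ball q δ,
      c * dist x y ≤ dist (it F n x) (it F n y) ∧ dist (it F n x) (it F n y) ≤ L * dist x y := by
  induction n with
  | zero =>
    intro q hq
    refine ⟨1, 1, 1, one_pos, one_pos, one_pos, fun x _ y _ => ?_⟩
    rw [one_mul]
    exact ⟨le_rfl, le_rfl⟩
  | succ n ih =>
    intro q hq
    obtain ⟨c, L, δ, hc, hL, hδ, h1⟩ := bil1 hB hE hq
    obtain ⟨c', L', δ', hc', hL', hδ', h2⟩ := ih (F.eval q) ((hB.invJ q).2 hq)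
    refine ⟨c' * c, L' * L, min δ (δ' / L), by positivity, by positivity,
      lt_min hδ (by positivity), ?_⟩
    have hin : ∀ x ∈ ball q (min δ (δ' / L)), x ∈ ball q δ ∧ F.eval x ∈ ball (F.eval q) δ' := by
      intro x hx
      rw [mem_ball, lt_min_iff] at hx
      refine ⟨hx.1, ?_⟩
      have h3 := (h1 x hx.1 q (mem_ball_self hδ)).2
      have h4 := hx.2
      rw [lt_div_iff₀ hL] at h4
      rw [mem_ball]
      linarith
    intro x hx y hy
    obtain ⟨x1, x2⟩ := hin x hx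
    obtain ⟨y1, y2⟩ := hin y hy
    obtain ⟨a1, a2⟩ := h1 x x1 y y1
    obtain ⟨b1, b2⟩ := h2 _ x2 _ y2
    show c' * c * dist x y ≤ dist (it F n (F.eval x)) (it F n (F.eval y)) ∧
      dist (it F n (F.eval x)) (it F n (F.eval y)) ≤ L' * L * dist x y
    constructor
    · calc c' * c * dist x y = c' * (c * dist x y) := by ring
        _ ≤ c' * dist (F.eval x) (F.eval y) := mul_le_mul_of_nonneg_left a1 hc'.le
        _ ≤ _ := b1
    · calc _ ≤ L' * dist (F.eval x) (F.eval y) := b2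
        _ ≤ L' * (L * dist x y) := mul_le_mul_of_nonneg_left a2 hL'.le
        _ = _ := by ring

theorem it_conj {F : Polynomial ℂ} {r : ℝ} {φ : ℝ → ℂ} {α β : ℝ} (H : Fin0 F r φ α β) (n : ℕ) :
    ∀ v : ℝ, it F n (φ v) = φ ((F.natDegree : ℝ) ^ n * v) := by
  induction n with
  | zero =>
    intro v
    rw [pow_zero, one_mul]
    rfl
  | succ n ih =>
    intro v
    show it F n (F.eval (φ v)) = _
    rw [H.conj, ih, pow_succ, mul_assoc]

theorem core {F : Polynomial ℂ} {r : ℝ} {φ : ℝ → ℂ} {α β : ℝ} (H : Fin0 F r φ α β) (n : ℕ)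
    (σ τ s t γ : ℝ) (huni : ∀ v ∈ Icc α β, φ v = φ γ → v = γ)
    (hLT : LT (arc φ α β) (arc φ β (α + 1)) (φ γ))
    (hτ : τ = σ + (β - α) / (F.natDegree : ℝ) ^ n)
    (hk : ∃ k : ℤ, (F.natDegree : ℝ) ^ n * σ = α + k) (hsat : Sat φ σ τ)
    (hst : ∀ u ∈ Icc s t, ∀ k : ℤ, u + k ∉ Ioo σ τ) :
    LT (arc φ σ τ) (arc φ s t) (φ (σ + (γ - α) / (F.natDegree : ℝ) ^ n)) := by
  obtain ⟨k, hk⟩ := hk
  have hD : (0 : ℝ) < F.natDegree := by
    have := H.deg
    exact_mod_cast (by omega : 0 < F.natDegree)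
  have hE : 0 < (F.natDegree : ℝ) ^ n := pow_pos hD n
  have hconj := it_conj H n
  set E : ℝ := (F.natDegree : ℝ) ^ n with hEdef
  set ω : ℝ := σ + (γ - α) / E with hω
  have hmul : ∀ w : ℝ, E * (σ + (w - α) / E) = w + k := by
    intro w
    have : E * (σ + (w - α) / E) = E * σ + (w - α) := by
      field_simp
    rw [this, hk]
    ring
  have hJ : ∀ v, φ v ∈ JJ F := fun v => by
    rw [← H.rng]
    exact ⟨v, rfl⟩
  have hTq : it F n (φ ω) = φ γ := by
    rw [hconj, hω, hmul, per_int H.per]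
  obtain ⟨c, L, δ, hc, hL, hδ, hb⟩ := bil H.bas H.ex n (φ ω) (hJ ω)
  obtain ⟨C, hC, ρ, hρ, hLT⟩ := hLT
  -- continuity of `φ` at `ω`
  obtain ⟨ε₁, hε₁, hφ⟩ := Metric.continuous_iff.1 H.cont ω δ hδ
  -- compactness
  have hcomp : ∃ ε : ℝ, 0 < ε ∧ ∀ v ∈ Icc α β, dist (φ v) (φ γ) < ε → |v - γ| < E * ε₁ := by
    have hK : IsCompact (Icc α β ∩ {v | E * ε₁ ≤ |v - γ|}) :=
      isCompact_Icc.inter_right (isClosed_le continuous_const (by fun_prop))
    obtain ⟨a, ha, h⟩ := hK.exists_forall_le' (f := fun v => dist (φ v) (φ γ)) (a := 0)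
      (H.cont.dist continuous_const).continuousOn (fun v hv => by
        refine dist_pos.2 fun h => ?_
        have h1 := huni v hv.1 h
        have h2 := hv.2
        rw [mem_ofPred_eq, h1, sub_self, abs_zero] at h2
        have : 0 < E * ε₁ := mul_pos hE hε₁
        linarith)
    refine ⟨a, ha, fun v hv hd => ?_⟩
    by_contra hcon
    have := h v ⟨hv, not_lt.1 hcon⟩
    linarith
  obtain ⟨ε, hε, hcomp⟩ := hcomp
  refine ⟨C * L / c, by positivity, min δ (min (ρ / L) (ε / L)),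
    lt_min hδ (lt_min (by positivity) (by positivity)), ?_⟩
  intro x hx hxq y hy hyq
  rw [lt_min_iff, lt_min_iff, lt_div_iff₀ hL, lt_div_iff₀ hL] at hxq hyq
  obtain ⟨hx1, hx2, hx3⟩ := hxq
  obtain ⟨hy1, hy2, hy3⟩ := hyq
  have hqq := mem_ball_self (x := φ ω) hδ
  have bx := hb x hx1 (φ ω) hqq
  have by' := hb y hy1 (φ ω) hqq
  rw [hTq] at bx by'
  have bxy := hb x hx1 y hy1
  -- `T x` is in the arc
  have hTx : it F n x ∈ arc φ α β := by
    obtain ⟨v, hv, rfl⟩ := hx
    refine ⟨α + E * (v - σ), ⟨?_, ?_⟩, ?_⟩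
    · have : 0 ≤ E * (v - σ) := mul_nonneg hE.le (by linarith [hv.1])
      linarith
    · have h1 : v - σ ≤ (β - α) / E := by linarith [hv.2]
      rw [le_div_iff₀ hE] at h1
      linarith
    · rw [hconj, ← per_int H.per (α + E * (v - σ)) k]
      congr 1
      linear_combination (-1 : ℝ) * hk
  -- `T y` is in the other arc
  have hTy : it F n y ∈ arc φ β (α + 1) := by
    obtain ⟨u, hu, rfl⟩ := hy
    have hper : φ (E * u) = φ (E * u + ((-⌊E * u - α⌋ : ℤ) : ℝ)) := (per_int H.per _ _).symm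
    set w : ℝ := E * u + ((-⌊E * u - α⌋ : ℤ) : ℝ) with hw
    have hw1 : α ≤ w := by
      have := Int.floor_le (E * u - α)
      rw [hw]
      push_cast
      linarith
    have hw2 : w < α + 1 := by
      have := Int.lt_floor_add_one (E * u - α)
      rw [hw]
      push_cast
      linarith
    have hTw : it F n (φ u) = φ w := by rw [hconj, hper]
    rcases le_or_gt β w with h | h
    · exact ⟨w, ⟨h, hw2.le⟩, hTw.symm⟩
    rcases eq_or_lt_of_le hw1 with h0 | h0
    · refine ⟨α + 1, ⟨H.ba.le, le_rfl⟩, ?_⟩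
      rw [hTw, H.per, h0]
    exfalso
    have hd : dist (φ w) (φ γ) < ε := by
      rw [← hTw]
      calc _ ≤ L * dist (φ u) (φ ω) := by'.2
        _ < ε := by rw [mul_comm]; exact hy3
    have h1 := hcomp w ⟨hw1, h.le⟩ hd
    set v' : ℝ := σ + (w - α) / E with hv'
    have h2 : dist v' ω < ε₁ := by
      rw [Real.dist_eq, hv', hω]
      have : σ + (w - α) / E - (σ + (γ - α) / E) = (w - γ) / E := by ring
      rw [this, abs_div, abs_of_pos hE, div_lt_iff₀ hE]
      linarith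
    have h3 := hφ v' h2
    have h4 := (hb (φ u) hy1 (φ v') h3).1
    have h5 : it F n (φ v') = φ w := by
      rw [hconj, hv', hmul, per_int H.per]
    rw [hTw, h5, dist_self] at h4
    have h6 : dist (φ u) (φ v') = 0 := by
      have h7 : 0 ≤ dist (φ u) (φ v') := dist_nonneg
      by_contra hne
      have h8 : 0 < dist (φ u) (φ v') := lt_of_le_of_ne h7 (Ne.symm hne)
      have := mul_pos hc h8
      linarith
    have h7 : φ v' = φ u := (dist_eq_zero.1 h6).symm
    have hv'in : v' ∈ Ioo σ τ := by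
      refine ⟨?_, ?_⟩
      · have : 0 < (w - α) / E := div_pos (by linarith) hE
        linarith
      · rw [hτ, hv']
        have : (w - α) / E < (β - α) / E := (div_lt_div_iff_of_pos_right hE).2 (by linarith)
        linarith
    obtain ⟨k', hk'⟩ := hsat v' hv'in u h7
    exact hst u hu k' hk'
  have h1 := hLT _ hTx (by
    calc _ ≤ L * dist x (φ ω) := bx.2
      _ < ρ := by rw [mul_comm]; exact hx2) _ hTy (by
    calc _ ≤ L * dist y (φ ω) := by'.2
      _ < ρ := by rw [mul_comm]; exact hy2)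
  have h2 : c * dist x (φ ω) ≤ C * (L * dist x y) :=
    (bx.1.trans h1).trans (mul_le_mul_of_nonneg_left bxy.2 hC.le)
  rw [show C * L / c * dist x y = (C * (L * dist x y)) / c by ring, le_div_iff₀ hc]
  linarith

theorem ltt : S_LTt := by
  intro F r φ α β H h1 h2 n σ τ s t hτ hk hsat hst
  have hα : ∀ v ∈ Icc α β, φ v = φ α → v = α := by
    intro v hv h
    by_contra hne
    rcases eq_or_lt_of_le hv.2 with hb | hb
    · rw [hb] at h
      exact H.ne h.symm
    · exact H.lastα v ⟨lt_of_le_of_ne hv.1 (Ne.symm hne), hb⟩ h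
  have hβ : ∀ v ∈ Icc α β, φ v = φ β → v = β := by
    intro v hv h
    by_contra hne
    rcases eq_or_lt_of_le hv.1 with hb | hb
    · rw [← hb] at h
      exact H.ne h
    · exact H.firstβ v ⟨hb, lt_of_le_of_ne hv.2 hne⟩ h
  refine ⟨?_, ?_⟩
  · have := core H n σ τ s t α hα h1 hτ hk hsat hst
    rwa [sub_self, zero_div, add_zero] at this
  · have := core H n σ τ s t β hβ h2 hτ hk hsat hst
    rwa [← hτ] at this

end Pool.Agent.W597.JQL
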