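import Pool.Agent.W363.JQ.Stm

/-! # JQ-PSI: local inverse branches on the arc, saturation -/

set_option autoImplicit false
open Filter Topology Set Metric

namespace Pool.Agent.W597.JQ
open Pool.Agent.W363.JQ

theorem per_int {φ : ℝ → ℂ} (h : ∀ t, φ (t + 1) = φ t) (t : ℝ) (k : ℤ) : φ (t + k) = φ t := by
  have h1 : Function.Periodic φ 1 := h
  have h2 := h1.int_mul k t
  rwa [mul_one] at h2

theorem loc {F : Polynomial ℂ} {r : ℝ} {φ : ℝ → ℂ} {α β : ℝ} (hu : S_uniq)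
    (H : Fin0 F r φ α β) (γ : ℝ) (hγ : γ ∈ Icc α β)
    (hfix : ∃ k : ℤ, (F.natDegree : ℝ) * γ = γ + k)
    (near : ∀ t ∈ Icc α β, dist (φ t) (φ γ) < r / 2) :
    ∃ ψ : ℂ → ℂ, DifferentiableOn ℂ ψ (ball (φ γ) r) ∧
      (∀ u ∈ ball (φ γ) r, ∀ v ∈ ball (φ γ) r, dist (ψ u) (ψ v) ≤ dist u v / 2) ∧
      (∀ u ∈ ball (φ γ) r, F.eval (ψ u) = u) ∧
      ∀ t ∈ Icc α β, ψ (φ t) = φ (γ + (t - γ) / F.natDegree) := by
  obtain ⟨k, hk⟩ := hfix
  have hr := H.ex.1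
  have hD : (0 : ℝ) < F.natDegree := by
    have := H.deg
    exact_mod_cast (by omega : 0 < F.natDegree)
  have hJ : ∀ t, φ t ∈ JJ F := fun t => by
    rw [← H.rng]
    exact ⟨t, rfl⟩
  have h0 : F.eval (φ γ) = φ γ := by
    rw [H.conj, hk, per_int H.per]
  obtain ⟨g, g1, g2, g3, g4⟩ := H.ex.2 (φ γ) (hJ γ) (φ γ) (mem_ball_self hr) (φ γ) h0
  refine ⟨g, g1, g4, g3, ?_⟩
  have hin : ∀ t ∈ Icc α β, φ t ∈ ball (φ γ) r := fun t ht => by
    have := near t ht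
    rw [mem_ball]
    linarith
  have e1 : ∀ t : ℝ, F.eval (φ (γ + (t - γ) / F.natDegree)) = φ t := by
    intro t
    rw [H.conj, ← per_int H.per t k]
    congr 1
    field_simp
    linarith
  refine hu F r H.bas H.ex 1 (Icc α β) (fun t => g (φ t))
    (fun t => φ (γ + (t - γ) / F.natDegree)) isPreconnected_Icc ?_ ?_ ?_ ?_ γ hγ ?_
  · exact g1.continuousOn.comp H.cont.continuousOn hin
  · exact (H.cont.comp (by fun_prop)).continuousOn
  · intro t ht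
    show F.eval (g (φ t)) = F.eval (φ (γ + (t - γ) / F.natDegree))
    rw [g3 _ (hin t ht), e1]
  · intro t ht
    refine ⟨φ t, hJ t, ?_⟩
    show dist (F.eval (g (φ t))) (φ t) < r
    rw [g3 _ (hin t ht), dist_self]
    exact hr
  · show g (φ γ) = φ (γ + (γ - γ) / F.natDegree)
    rw [g2, sub_self, zero_div, add_zero]

theorem psi0 (h : S_uniq) : S_psi := by
  intro F r φ α β H
  obtain ⟨ψ₀, a1, a2, a3, a4⟩ := loc h H α ⟨le_rfl, H.ab.le⟩ (H.fixα α rfl) H.nearα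
  obtain ⟨ψ₁, b1, b2, b3, b4⟩ := loc h H β ⟨H.ab.le, le_rfl⟩ (H.fixβ β rfl) H.nearβ
  refine ⟨ψ₀, ψ₁, a1, b1, a2, b2, a3, b3, a4, fun t ht => ?_⟩
  rw [b4 t ht]
  congr 1
  ring

theorem satloc {F : Polynomial ℂ} {r : ℝ} {φ : ℝ → ℂ} {α β : ℝ}
    (H : Fin0 F r φ α β) (γ : ℝ) (hfix : ∃ k : ℤ, (F.natDegree : ℝ) * γ = γ + k) (ψ : ℂ → ℂ)
    (hψ : ∀ t ∈ Icc α β, ψ (φ t) = φ (γ + (t - γ) / F.natDegree)) (s t : ℝ) (hs : α ≤ s)
    (ht : t ≤ β) (hst : Sat φ s t) :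
    Sat φ (γ + (s - γ) / F.natDegree) (γ + (t - γ) / F.natDegree) := by
  obtain ⟨k, hk⟩ := hfix
  have hD : (0 : ℝ) < F.natDegree := by
    have := H.deg
    exact_mod_cast (by omega : 0 < F.natDegree)
  set D : ℝ := (F.natDegree : ℝ) with hDdef
  intro u hu u' huu
  have he : ∀ v : ℝ, D * (γ + (v - γ) / D) = v + k := by
    intro v
    field_simp
    linarith
  obtain ⟨v, hv⟩ : ∃ v : ℝ, v = D * u - k := ⟨_, rfl⟩
  have huv : γ + (v - γ) / D = u := by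
    have := he v
    have h2 : D * (γ + (v - γ) / D) = D * u := by
      rw [this, hv]
      ring
    exact mul_left_cancel₀ hD.ne' h2
  have hmono : ∀ a b : ℝ, γ + (a - γ) / D < γ + (b - γ) / D ↔ a < b := by
    intro a b
    rw [add_lt_add_iff_left, div_lt_div_iff_of_pos_right hD, sub_lt_sub_iff_right]
  have hvst : v ∈ Ioo s t := by
    rw [← huv] at hu
    exact ⟨(hmono _ _).1 hu.1, (hmono _ _).1 hu.2⟩
  have h1 : φ v = φ (D * u') := by
    have e1 : F.eval (φ u) = φ v := by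
      rw [H.conj, ← per_int H.per v k]
      congr 1
      rw [hv, ← hDdef]
      ring
    rw [← e1, huu, H.conj]
  obtain ⟨m, hm⟩ := hst v hvst (D * u') h1
  have h2 : φ (D * u' + m) = φ v := by rw [per_int H.per, h1]
  have hIcc : ∀ w ∈ Ioo s t, w ∈ Icc α β := fun w hw => ⟨hs.trans hw.1.le, hw.2.le.trans ht⟩
  have h3 : φ (γ + (D * u' + m - γ) / D) = φ u' := by
    rw [← hψ _ (hIcc _ hm), h2, hψ _ (hIcc _ hvst), huv, huu]
  obtain ⟨j, hj⟩ := H.bu u' (γ + (D * u' + m - γ) / D) h3.symm ⟨m + k, by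
    rw [← hDdef, he]
    push_cast
    ring⟩
  refine ⟨j, ?_⟩
  rw [← hj]
  exact ⟨(hmono _ _).2 hm.1, (hmono _ _).2 hm.2⟩

theorem satT : S_satT := by
  intro F r φ α β ψ₀ ψ₁ H P s t hs hst ht h
  refine ⟨satloc H α (H.fixα α rfl) ψ₀ P.eq0 s t hs ht h, ?_⟩
  have h1 := satloc H β (H.fixβ β rfl) ψ₁ (fun t ht => by
    rw [P.eq1 t ht]
    congr 1
    ring) s t hs ht h
  rw [show β - (β - s) / (F.natDegree : ℝ) = β + (s - β) / F.natDegree by ring,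
    show β - (β - t) / (F.natDegree : ℝ) = β + (t - β) / F.natDegree by ring]
  exact h1

end Pool.Agent.W597.JQ
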